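import Mathlib

set_option autoImplicit false

namespace Pool.Agent.MP_52a2fa_pr.H93

open MeasureTheory ProbabilityTheory
open scoped ENNReal NNReal

/-- Sites of the four-dimensional lattice. -/
abbrev Site : Type := Fin 4 → ℤ

/-- The eight steps: a direction and a sign. -/
abbrev Step : Type := Fin 4 × Bool

/-- The displacement of a step. -/
def step (σ : Step) : Site := Pi.single σ.1 (if σ.2 then 1 else -1)

/-- The position at time `t` of the walk from the origin with steps `s`. -/
def walk (s : ℕ → Step) (t : ℕ) : Site := ∑ i ∈ Finset.range t, step (s i)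

/-- A walk together with a length. -/
abbrev Worm : Type := (ℕ → Step) × ℕ

/-- The sites `X(0), …, X(L-1)`. -/
def wormSet (w : Worm) : Finset Site := (Finset.range w.2).image (walk w.1)

/-- Independent uniform steps and an independent length with law `m`. -/
noncomputable def wormLaw (m : PMF ℕ) : Measure Worm :=
  (Measure.infinitePi fun _ : ℕ => uniformOn (Set.univ : Set Step)).prod m.toMeasure

/-- At each site a number of worms and a sequence of worms. -/
abbrev Config : Type := Site → ℕ × (ℕ → Worm)

/-- Independent Poisson numbers and independent worms. -/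
noncomputable def law (m : PMF ℕ) (v : ℝ≥0) : Measure Config :=
  Measure.infinitePi fun _ : Site =>
    (poissonMeasure v).prod (Measure.infinitePi fun _ : ℕ => wormLaw m)

/-- The union of the first `N_x` worms at `x`, translated by `x`, over all sites `x`. -/
def occupied (ω : Config) : Set Site :=
  {a | ∃ x : Site, ∃ i < (ω x).1, ∃ b ∈ wormSet ((ω x).2 i), a = x + b}

/-- The nearest-neighbour graph. -/
def lattice : SimpleGraph Site := SimpleGraph.fromRel fun a b => ∑ j, |a j - b j| = 1

/-- The set contains an infinite connected component. -/
def Percolates (S : Set Site) : Prop :=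
  ∃ c : (lattice.induce S).ConnectedComponent, c.supp.Infinite

/-- The critical level. -/
noncomputable def vc (m : PMF ℕ) : ℝ≥0∞ :=
  ⨆ (v : ℝ≥0) (_ : law m v {ω | Percolates (occupied ω)} = 0), (v : ℝ≥0∞)

end Pool.Agent.MP_52a2fa_pr.H93
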