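import Pool.Agent.MP_52a2fa_pr.H50.Final
import Pool.Agent.MP_52a2fa_pr.H93.Defs

set_option autoImplicit false

namespace Pool.Agent.MP_52a2fa_pr.H93

open MeasureTheory ProbabilityTheory H50
open scoped ENNReal NNReal

instance (m : PMF ℕ) : IsProbabilityMeasure (wormLaw m) := by
  unfold wormLaw; infer_instance

instance (m : PMF ℕ) (v : ℝ≥0) : IsProbabilityMeasure (law m v) := by
  unfold law; infer_instance

/-- the first `n` steps -/
def res (n : ℕ) (s : ℕ → Step) : Fin n → Step := fun i => s i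

lemma meas_res (n : ℕ) : Measurable (res n) :=
  measurable_pi_lambda _ fun _ => measurable_pi_apply _

lemma wormSet_succ (s : ℕ → Step) (n : ℕ) : wormSet (s, n + 1) = rng (List.ofFn (res n s)) := by
  rw [← rng_ofFn, wormSet]
  refine Finset.image_congr fun t ht => ?_
  have ht' : t ≤ n := by simpa [Nat.lt_succ_iff] using ht
  show ∑ i ∈ Finset.range t, step (s i) = _
  rw [Finset.sum_filter]
  have := Fin.sum_univ_eq_sum_range (fun i => if i < t then step (s i) else 0) n
  refine Eq.trans ?_ this.symm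
  rw [← Finset.sum_filter]
  congr 1
  ext i
  simp only [Finset.mem_range, Finset.mem_filter]
  omega

lemma meas_slice (n : ℕ) (𝒜 : Set (Finset Site)) :
    MeasurableSet {s : ℕ → Step | wormSet (s, n) ∈ 𝒜} := by
  cases n with
  | zero =>
    by_cases h : (∅ : Finset Site) ∈ 𝒜
    · simp [wormSet, h]
    · simp [wormSet, h]
  | succ n =>
    simp only [wormSet_succ]
    exact meas_res n (MeasurableSet.of_discrete (s := {g | rng (List.ofFn g) ∈ 𝒜}))

lemma meas_worm (𝒜 : Set (Finset Site)) : MeasurableSet {w : Worm | wormSet w ∈ 𝒜} := by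
  have : {w : Worm | wormSet w ∈ 𝒜} =
      ⋃ n : ℕ, {s : ℕ → Step | wormSet (s, n) ∈ 𝒜} ×ˢ ({n} : Set ℕ) := by
    ext ⟨s, n⟩
    simp
  rw [this]
  exact MeasurableSet.iUnion fun n => (meas_slice n 𝒜).prod (measurableSet_singleton n)

lemma walk_cyl (n : ℕ) (g : Fin n → Step) :
    (Measure.infinitePi fun _ : ℕ => uniformOn (Set.univ : Set Step)) (res n ⁻¹' {g}) =
      ENNReal.ofReal (1 / 8 ^ n) := by
  have e : res n ⁻¹' {g} = Set.pi (Finset.range n : Finset ℕ)
      fun i => {if h : i < n then g ⟨i, h⟩ else (0, true)} := by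
    ext s
    simp only [Set.mem_preimage, Set.mem_singleton_iff, Set.mem_pi, Finset.coe_range, Set.mem_Iio]
    constructor
    · rintro rfl i hi
      rw [dif_pos hi]; rfl
    · intro h
      funext i
      have := h i i.2
      rw [dif_pos i.2] at this
      exact this
  rw [e, Measure.infinitePi_pi _ fun i _ => measurableSet_singleton _]
  simp only [uniformOn_univ, Measure.count_singleton, card_St, Finset.prod_const,
    Finset.card_range]
  rw [one_div, one_div, ← inv_pow, ENNReal.ofReal_pow (by norm_num),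
    ENNReal.ofReal_inv_of_pos (by norm_num)]
  simp

lemma walk_set (n : ℕ) (A : Finset Site) :
    (Measure.infinitePi fun _ : ℕ => uniformOn (Set.univ : Set Step))
      {s | wormSet (s, n + 1) = A} =
      ENNReal.ofReal (EE n fun l => if rng l = A then 1 else 0) := by
  classical
  set μ := Measure.infinitePi fun _ : ℕ => uniformOn (Set.univ : Set Step) with hμ
  let T : Finset (Fin n → Step) := Finset.univ.filter fun g => rng (List.ofFn g) = A
  have e : {s | wormSet (s, n + 1) = A} = res n ⁻¹' (T : Set (Fin n → Step)) := by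
    ext s
    simp [T, wormSet_succ]
  rw [e, ← Measure.map_apply (meas_res n) MeasurableSet.of_discrete,
    ← sum_measure_singleton]
  have h1 : ∀ g ∈ T, (μ.map (res n)) {g} = ENNReal.ofReal (1 / 8 ^ n) := fun g _ => by
    rw [Measure.map_apply (meas_res n) MeasurableSet.of_discrete, walk_cyl]
  rw [Finset.sum_congr rfl h1, Finset.sum_const, nsmul_eq_mul, EE_eq_sum, ← ENNReal.ofReal_natCast,
    ← ENNReal.ofReal_mul (by positivity)]
  congr 1
  rw [Finset.card_filter]
  push_cast
  ring

/-- the mass function as a real function -/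
noncomputable def mr (m : PMF ℕ) (l : ℕ) : ℝ := (m l).toReal

lemma mr_nonneg (m : PMF ℕ) (l : ℕ) : 0 ≤ mr m l := ENNReal.toReal_nonneg

lemma mr_hasSum (m : PMF ℕ) : HasSum (mr m) 1 := by
  have h := ENNReal.hasSum_toReal (f := fun l => m l) (by rw [m.tsum_coe]; exact ENNReal.one_ne_top)
  rw [← ENNReal.tsum_toReal_eq fun l => m.apply_ne_top l, m.tsum_coe] at h
  exact h

lemma wormLaw_eq (m : PMF ℕ) (h0 : m 0 = 0) (A : Finset Site) :
    wormLaw m {w | wormSet w = A} = ENNReal.ofReal (nu (mr m) A) := by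
  have hm : MeasurableSet {w : Worm | wormSet w = A} := meas_worm {A}
  rw [wormLaw, Measure.prod_apply_symm hm, lintegral_countable', tsum_eq_zero_add' ENNReal.summable,
    PMF.toMeasure_apply_singleton _ _ (measurableSet_singleton _), h0, mul_zero, zero_add, nu,
    ENNReal.ofReal_tsum_of_nonneg (fun n => mul_nonneg (mr_nonneg m _) (ind_nonneg n _))
      (nu_summable (mr_nonneg m) (mr_hasSum m) _)]
  refine tsum_congr fun n => ?_
  rw [PMF.toMeasure_apply_singleton _ _ (measurableSet_singleton _),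
    ENNReal.ofReal_mul (mr_nonneg m _), mr, ENNReal.ofReal_toReal (m.apply_ne_top _), mul_comm,
    ← walk_set]
  rfl

lemma wormLaw_fin (m : PMF ℕ) (h0 : m 0 = 0) (𝒜 : Finset (Finset Site)) :
    wormLaw m {w | wormSet w ∈ 𝒜} = ENNReal.ofReal (∑ A ∈ 𝒜, nu (mr m) A) := by
  have e : {w : Worm | wormSet w ∈ 𝒜} = ⋃ A ∈ 𝒜, {w | wormSet w = A} := by
    ext w; simp
  rw [e, measure_biUnion_finset, ENNReal.ofReal_sum_of_nonneg fun A _ => nu_nonneg (mr_nonneg m) A]
  · exact Finset.sum_congr rfl fun A _ => wormLaw_eq m h0 A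
  · intro A _ B _ hAB
    exact Set.disjoint_left.2 fun w h1 h2 => hAB (h1.symm.trans h2)
  · exact fun A _ => meas_worm {A}

/-- no worm at a site has a shape in the family -/
def avoid (𝒜 : Finset (Finset Site)) : Set (ℕ × (ℕ → Worm)) :=
  {p | ∀ i < p.1, wormSet (p.2 i) ∉ 𝒜}

lemma avoid_slice (𝒜 : Finset (Finset Site)) (n : ℕ) :
    Prod.mk n ⁻¹' avoid 𝒜 =
      Set.pi (Finset.range n : Finset ℕ) fun _ => {w : Worm | wormSet w ∈ 𝒜}ᶜ := by
  ext h
  simp [avoid]

lemma meas_avoid (𝒜 : Finset (Finset Site)) : MeasurableSet (avoid 𝒜) := by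
  have : avoid 𝒜 = ⋃ n : ℕ, ({n} : Set ℕ) ×ˢ (Prod.mk n ⁻¹' avoid 𝒜) := by
    ext ⟨n, h⟩
    simp
  rw [this]
  refine MeasurableSet.iUnion fun n => (measurableSet_singleton n).prod ?_
  rw [avoid_slice]
  exact MeasurableSet.pi (Finset.countable_toSet _) fun _ _ => (meas_worm (𝒜 : Set _)).compl

lemma site_eq (m : PMF ℕ) (h0 : m 0 = 0) (v : ℝ≥0) (𝒜 : Finset (Finset Site)) :
    ((poissonMeasure v).prod (Measure.infinitePi fun _ : ℕ => wormLaw m)) (avoid 𝒜) =
      ENNReal.ofReal (Real.exp (-(v * ∑ A ∈ 𝒜, nu (mr m) A))) := by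
  set s := ∑ A ∈ 𝒜, nu (mr m) A with hs
  have hs0 : 0 ≤ s := Finset.sum_nonneg fun A _ => nu_nonneg (mr_nonneg m) A
  have hs1 : s ≤ 1 := by
    have : ENNReal.ofReal s ≤ 1 := wormLaw_fin m h0 𝒜 ▸ prob_le_one
    exact ENNReal.ofReal_le_one.1 this
  have hM : MeasurableSet {w : Worm | wormSet w ∈ 𝒜} := meas_worm (𝒜 : Set _)
  have hc : wormLaw m {w : Worm | wormSet w ∈ 𝒜}ᶜ = ENNReal.ofReal (1 - s) := by
    rw [prob_compl_eq_one_sub hM, wormLaw_fin m h0,
      ENNReal.ofReal_sub _ hs0, ENNReal.ofReal_one]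
  have hsum : HasSum (fun n : ℕ => (1 - s) ^ n * (Real.exp (-v) * (v : ℝ) ^ n / n.factorial))
      (Real.exp (-(v * s))) := by
    obtain ⟨r, hr⟩ : ∃ r : ℝ≥0, (r : ℝ) = v * (1 - s) :=
      ⟨⟨v * (1 - s), mul_nonneg v.coe_nonneg (by linarith)⟩, rfl⟩
    have h := (hasSum_one_poissonMeasure r).mul_left (Real.exp (-(v * s)))
    rw [mul_one] at h
    refine h.congr_fun ?_
    intro n
    have e : Real.exp (-v) = Real.exp (-(v * s)) * Real.exp (-(v * (1 - s))) := by
      rw [← Real.exp_add]; congr 1; ring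
    rw [e, hr, mul_pow]
    ring
  rw [Measure.prod_apply (meas_avoid 𝒜), lintegral_countable', ← hsum.tsum_eq,
    ENNReal.ofReal_tsum_of_nonneg (fun n => mul_nonneg (pow_nonneg (by linarith) _) (by positivity))
      hsum.summable]
  refine tsum_congr fun n => ?_
  rw [avoid_slice, Measure.infinitePi_pi _ fun _ _ => hM.compl,
    poissonMeasure_singleton, ENNReal.ofReal_mul (pow_nonneg (by linarith) _),
    ENNReal.ofReal_pow (by linarith)]
  simp only [hc, Finset.prod_const, Finset.card_range]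

/-- the event that no worm with index `k` is present -/
def absent (k : I) : Set Config := {ω | ω k.1 ∈ avoid {k.2}}

lemma meas_absent (k : I) : MeasurableSet (absent k) :=
  measurable_pi_apply k.1 (meas_avoid {k.2})

lemma law_absent (m : PMF ℕ) (h0 : m 0 = 0) (v : ℝ≥0) (T : Finset I) :
    law m v (⋂ k ∈ T, absent k) =
      ENNReal.ofReal (Real.exp (-(v * ∑ k ∈ T, nu (mr m) k.2))) := by
  classical
  let 𝒜 : Site → Finset (Finset Site) := fun x => (T.filter fun k => k.1 = x).image Prod.snd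
  have e : (⋂ k ∈ T, absent k) = Set.pi (T.image Prod.fst : Finset Site) fun x => avoid (𝒜 x) := by
    ext ω
    simp only [Set.mem_iInter, absent, avoid, Set.mem_ofPred_eq, Finset.mem_singleton, Set.mem_pi,
      Finset.coe_image, Set.mem_image, Finset.mem_coe, 𝒜, Finset.mem_image, Finset.mem_filter,
      not_exists, not_and]
    constructor
    · rintro h x - i hi k ⟨hk, rfl⟩ he
      exact h k hk i hi he.symm
    · intro h k hk i hi he
      exact h k.1 ⟨k, hk, rfl⟩ i hi k ⟨hk, rfl⟩ he.symm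
  rw [e, law, Measure.infinitePi_pi _ fun x _ => meas_avoid _]
  simp only [site_eq m h0]
  rw [← ENNReal.ofReal_prod_of_nonneg fun _ _ => (Real.exp_pos _).le, ← Real.exp_sum,
    Finset.sum_neg_distrib, ← Finset.mul_sum,
    ← Finset.sum_fiberwise_of_maps_to (s := T) (t := T.image Prod.fst) (g := Prod.fst)
      fun k hk => Finset.mem_image_of_mem _ hk]
  congr 4
  refine Finset.sum_congr rfl fun x _ => ?_
  refine Finset.sum_image fun k hk k' hk' h => ?_
  have h1 := (Finset.mem_filter.1 hk).2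
  have h2 := (Finset.mem_filter.1 hk').2
  exact Prod.ext (h1.trans h2.symm) h

open Classical in
/-- the field of present worms -/
noncomputable def xi (k : I) (ω : Config) : Bool := decide (ω ∉ absent k)

lemma xi_eq (k : I) : xi k = (fun n : ℕ => decide (n = 0)) ∘ (absent k).indicator fun _ => 1 := by
  funext ω
  by_cases h : ω ∈ absent k <;> simp [xi, h]

theorem model (m : PMF ℕ) (h0 : m 0 = 0) (v : ℝ≥0) : Model (mr m) v (law m v) xi := by
  have h1 : ∀ k, law m v (absent k) = ENNReal.ofReal (Real.exp (-(v * nu (mr m) k.2))) := by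
    intro k
    simpa using law_absent m h0 v {k}
  refine ⟨fun k => ?_, ?_, fun k => ?_⟩
  · rw [xi_eq]
    exact Measurable.of_discrete.comp (measurable_const.indicator (meas_absent k))
  · have h2 : iIndepSet absent (law m v) := by
      rw [iIndepSet_iff_meas_biInter meas_absent]
      intro T
      rw [law_absent m h0]
      simp only [h1]
      rw [← ENNReal.ofReal_prod_of_nonneg fun _ _ => (Real.exp_pos _).le, ← Real.exp_sum,
        Finset.sum_neg_distrib, ← Finset.mul_sum]
    have h3 := (h2.iIndepFun_indicator (β := ℕ)).comp (fun _ => fun n : ℕ => decide (n = 0))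
      fun _ => Measurable.of_discrete
    have e : xi = fun k => (fun n : ℕ => decide (n = 0)) ∘ (absent k).indicator fun _ => 1 :=
      funext xi_eq
    rw [e]
    exact h3
  · have e : {ω | xi k ω = true} = (absent k)ᶜ := by
      ext ω; simp [xi]
    rw [e, prob_compl_eq_one_sub (meas_absent k), h1,
      ENNReal.ofReal_sub _ (Real.exp_pos _).le, ENNReal.ofReal_one]

lemma occ_eq (ω : Config) : occ xi Set.univ ω = occupied ω := by
  ext a
  simp only [occ, occupied, xi, absent, avoid, Set.mem_ofPred_eq, Set.mem_univ, true_and,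
    decide_eq_true_eq, Finset.mem_singleton, not_forall, not_not]
  constructor
  · rintro ⟨k, ⟨i, hi, he⟩, ha⟩
    exact ⟨k.1, i, hi, a - k.1, he ▸ ha, by simp⟩
  · rintro ⟨x, i, hi, b, hb, rfl⟩
    exact ⟨(x, wormSet ((ω x).2 i)), ⟨i, hi, rfl⟩, by simpa using hb⟩

lemma lattice_adj (a b : Site) : lattice.Adj a b ↔ nn a b := by
  rw [lattice, SimpleGraph.fromRel_adj]
  constructor
  · rintro ⟨-, h | h⟩
    · exact h
    · exact nn_symm h
  · exact fun h => ⟨nn_ne h, Or.inl h⟩

lemma conn_of_reach {S : Set Site} {y z : S} (h : (lattice.induce S).Reachable y z) :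
    Conn S y z := by
  rw [SimpleGraph.reachable_iff_reflTransGen] at h
  induction h with
  | refl => exact .refl
  | tail _ h' ih => exact .tail ih ⟨Subtype.prop _, Subtype.prop _, (lattice_adj _ _).1 h'⟩

lemma reach_of_conn {S : Set Site} {y z : Site} (hy : y ∈ S) (h : Conn S y z) :
    ∃ hz : z ∈ S, (lattice.induce S).Reachable ⟨y, hy⟩ ⟨z, hz⟩ := by
  induction h with
  | refl => exact ⟨hy, .rfl⟩
  | tail _ h' ih =>
    obtain ⟨hb, hr⟩ := ih
    refine ⟨h'.2.1, hr.trans (SimpleGraph.Adj.reachable ?_)⟩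
    exact (lattice_adj _ _).2 h'.2.2

lemma perc_iff (S : Set Site) : Percolates S ↔ Perc S := by
  constructor
  · rintro ⟨c, hc⟩
    induction c using SimpleGraph.ConnectedComponent.ind with
    | h y =>
      refine ⟨y, (hc.image Subtype.val_injective.injOn).mono ?_⟩
      rintro _ ⟨z, hz, rfl⟩
      exact conn_of_reach (SimpleGraph.ConnectedComponent.exact hz).symm
  · rintro ⟨y, hy⟩
    have hyS : y ∈ S := by
      obtain ⟨z, hz, hne⟩ := hy.exists_notMem_finset {y}
      rcases Relation.ReflTransGen.cases_head hz with h | ⟨c, h, -⟩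
      · exact absurd (Finset.mem_singleton.2 h.symm) hne
      · exact h.1
    refine ⟨(lattice.induce S).connectedComponentMk ⟨y, hyS⟩, fun hf => hy ?_⟩
    refine (hf.image Subtype.val).subset fun z hz => ?_
    obtain ⟨hzS, hr⟩ := reach_of_conn hyS hz
    exact ⟨⟨z, hzS⟩, SimpleGraph.ConnectedComponent.sound hr.symm, rfl⟩

lemma event_eq : {ω : Config | Percolates (occupied ω)} = {ω | Perc (occ xi Set.univ ω)} := by
  ext ω
  simp only [Set.mem_ofPred_eq, occ_eq, perc_iff]

end Pool.Agent.MP_52a2fa_pr.H93
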